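import Pool.Agent.Lib.MP_2e793b_nt.Iface

/-!
MP_2e793b_nt, module CANON: the canonical form of a number whose digits are in normal form.
-/

set_option autoImplicit false

namespace Pool.Agent.Lib.MP_2e793b_nt.H30

open Finset

theorem can_of_mul {b T : ℕ} {x : ℝ} (k : ℤ) (hk : k ≠ 0) (h : Can b T ((k : ℝ) * x)) :
    Can b T x := by
  obtain ⟨D, R, C, hD, hC, hs⟩ := h
  refine ⟨D * k, R, C, mul_ne_zero hD hk, hC, ?_⟩
  have e : ((D * k : ℤ) : ℝ) * x - R = D * (k * x) - R := by push_cast; ring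
  rw [e]
  exact hs

theorem can_int (b T : ℕ) (k : ℤ) : Can b T (k : ℝ) := by
  refine ⟨1, k, fun _ => 0, one_ne_zero, fun _ => rfl, ?_⟩
  have e : ((1 : ℤ) : ℝ) * (k : ℝ) - k = 0 := by push_cast; ring
  rw [e]
  simp

theorem can_smul {b T : ℕ} {x : ℝ} (c : ℤ) (h : Can b T x) : Can b T ((c : ℝ) * x) := by
  obtain ⟨D, R, C, hD, hC, hs⟩ := h
  refine ⟨D, c * R, fun u => c * C u, hD, fun u => by simp only [hC u], ?_⟩
  have e : (D : ℝ) * ((c : ℝ) * x) - ((c * R : ℤ) : ℝ) = (c : ℝ) * (D * x - R) := by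
    push_cast; ring
  rw [e]
  have h1 := hs.mul_left (c : ℝ)
  have e2 : (fun u : ℕ => ((c * C u : ℤ) : ℝ) / (b : ℝ) ^ (u ^ 2 / T)) =
      fun u : ℕ => (c : ℝ) * ((C u : ℝ) / (b : ℝ) ^ (u ^ 2 / T)) := by
    funext u; push_cast; ring
  rw [e2]
  exact h1

theorem can_add {b T : ℕ} {x y : ℝ} (hx : Can b T x) (hy : Can b T y) : Can b T (x + y) := by
  obtain ⟨D, R, C, hD, hC, hs⟩ := hx
  obtain ⟨D', R', C', hD', hC', hs'⟩ := hy
  refine ⟨D * D', D' * R + D * R', fun u => D' * C u + D * C' u, mul_ne_zero hD hD',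
    fun u => by simp only [hC u, hC' u], ?_⟩
  have e : ((D * D' : ℤ) : ℝ) * (x + y) - ((D' * R + D * R' : ℤ) : ℝ) =
      (D' : ℝ) * (D * x - R) + (D : ℝ) * (D' * y - R') := by
    push_cast; ring
  rw [e]
  have h1 := (hs.mul_left (D' : ℝ)).add (hs'.mul_left (D : ℝ))
  have e2 : (fun u : ℕ => ((D' * C u + D * C' u : ℤ) : ℝ) / (b : ℝ) ^ (u ^ 2 / T)) =
      fun u : ℕ => (D' : ℝ) * ((C u : ℝ) / (b : ℝ) ^ (u ^ 2 / T)) +
        (D : ℝ) * ((C' u : ℝ) / (b : ℝ) ^ (u ^ 2 / T)) := by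
    funext u; push_cast; ring
  rw [e2]
  exact h1

theorem val_int (b : ℕ) (hb : 2 ≤ b) (v : List ℤ) :
    ∃ k : ℤ, (k : ℝ) = (b : ℝ) ^ v.length * val b v := by
  have hb0 : (b : ℝ) ≠ 0 := by positivity
  induction v with
  | nil => exact ⟨0, by simp [val]⟩
  | cons d v ih =>
    obtain ⟨k, hk⟩ := ih
    refine ⟨(b : ℤ) ^ v.length * d + k, ?_⟩
    have e : val b (d :: v) = ((d : ℝ) + val b v) / b := rfl
    rw [e, List.length_cons, pow_succ]
    push_cast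
    rw [hk]
    field_simp

/-- the common period -/
def per (Y : ℕ) : ℕ := if Y = 0 then 1 else 8 * Y

theorem per_pos (Y : ℕ) : 1 ≤ per Y := by
  unfold per
  split_ifs with h <;> omega

/-- both kinds of series -/
theorem series (h3 : MonoStmt) (b G Y : ℕ) (hb : 2 ≤ b) (h : 1 ≤ G + Y) :
    Summable (fun m : ℕ => 1 / (b : ℝ) ^ (G * m + Y * (m * (m - 1) / 2))) ∧
    Can b (per Y) (∑' m : ℕ, 1 / (b : ℝ) ^ (G * m + Y * (m * (m - 1) / 2))) := by
  rcases Nat.eq_zero_or_pos Y with hY | hY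
  · subst hY
    have hG : 1 ≤ G := by omega
    have hb1 : (1 : ℝ) < (b : ℝ) := by exact_mod_cast (by omega : 1 < b)
    have hbG : (1 : ℝ) < (b : ℝ) ^ G := one_lt_pow₀ hb1 (by omega)
    have hb0 : (0 : ℝ) < (b : ℝ) ^ G := by positivity
    have e : (fun m : ℕ => 1 / (b : ℝ) ^ (G * m + 0 * (m * (m - 1) / 2))) =
        fun m : ℕ => (((b : ℝ) ^ G)⁻¹) ^ m := by
      funext m
      rw [zero_mul, add_zero, pow_mul, one_div, inv_pow]
    have hr0 : 0 ≤ ((b : ℝ) ^ G)⁻¹ := by positivity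
    have hr1 : ((b : ℝ) ^ G)⁻¹ < 1 := inv_lt_one_of_one_lt₀ hbG
    rw [e]
    refine ⟨summable_geometric_of_lt_one hr0 hr1, ?_⟩
    rw [tsum_geometric_of_lt_one hr0 hr1]
    refine can_of_mul ((b : ℤ) ^ G - 1) ?_ ?_
    · have : (1 : ℤ) < (b : ℤ) ^ G := by exact_mod_cast hbG
      omega
    · have e2 : (((b : ℤ) ^ G - 1 : ℤ) : ℝ) * (1 - ((b : ℝ) ^ G)⁻¹)⁻¹ = (((b : ℤ) ^ G : ℤ) : ℝ) := by
        push_cast
        have h1 : (b : ℝ) ^ G - 1 ≠ 0 := by linarith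
        have h2 : 1 - ((b : ℝ) ^ G)⁻¹ = ((b : ℝ) ^ G - 1) / (b : ℝ) ^ G := by
          field_simp
        rw [h2, inv_div]
        field_simp
      rw [e2]
      exact can_int _ _ _
  · have hp : per Y = 8 * Y := by
      unfold per
      rw [if_neg (by omega)]
    rw [hp]
    exact h3 b G Y hb hY

theorem list_series (h3 : MonoStmt) (b Z Y : ℕ) (hb : 2 ≤ b) (h : 1 ≤ Z + Y)
    (J : List (ℤ × ℕ)) : ∃ S : ℝ, Can b (per Y) S ∧
    HasSum (fun m : ℕ => (J.map (fun j => (j.1 : ℝ) / (b : ℝ) ^ (j.2 * m))).sum /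
      (b : ℝ) ^ (Z * m + Y * (m * (m - 1) / 2))) S := by
  have hb0 : (b : ℝ) ≠ 0 := by positivity
  induction J with
  | nil =>
    refine ⟨0, by simpa using can_int b (per Y) 0, ?_⟩
    simp
  | cons j J ih =>
    obtain ⟨S, hS, hs⟩ := ih
    obtain ⟨h1, h2⟩ := series h3 b (Z + j.2) Y hb (by omega)
    refine ⟨(j.1 : ℝ) * (∑' m : ℕ, 1 / (b : ℝ) ^ ((Z + j.2) * m + Y * (m * (m - 1) / 2))) + S,
      can_add (can_smul j.1 h2) hS, ?_⟩
    have h4 := (h1.hasSum.mul_left (j.1 : ℝ)).add hs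
    have e : (fun m : ℕ => ((j :: J).map (fun j => (j.1 : ℝ) / (b : ℝ) ^ (j.2 * m))).sum /
        (b : ℝ) ^ (Z * m + Y * (m * (m - 1) / 2))) =
        fun m : ℕ => (j.1 : ℝ) * (1 / (b : ℝ) ^ ((Z + j.2) * m + Y * (m * (m - 1) / 2))) +
          (J.map (fun j => (j.1 : ℝ) / (b : ℝ) ^ (j.2 * m))).sum /
            (b : ℝ) ^ (Z * m + Y * (m * (m - 1) / 2)) := by
      funext m
      rw [List.map_cons, List.sum_cons, add_div]
      congr 1
      have e1 : (Z + j.2) * m + Y * (m * (m - 1) / 2) =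
          j.2 * m + (Z * m + Y * (m * (m - 1) / 2)) := by ring
      rw [e1, pow_add _ (j.2 * m), div_div, mul_one_div]
    rw [e]
    exact h4

theorem canon (h1 : ValbStmt) (h2 : SerpStmt) (h3 : MonoStmt) : CanonStmt := by
  intro b z0 zy d hb hd hnf hl
  have hb0 : (b : ℝ) ≠ 0 := by positivity
  refine ⟨per (len2 zy), per_pos _, ?_⟩
  obtain ⟨D, J, hD, hJ⟩ := h1 b zy hb
  have hs := h2 b z0 zy d hb hd hnf hl
  obtain ⟨S, hS, hsS⟩ := list_series h3 b (len1 zy) (len2 zy) hb hl J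
  obtain ⟨k, hk⟩ := val_int b hb z0
  have h5 := hs.mul_left ((D : ℝ) * (b : ℝ) ^ z0.length)
  have e : (fun m : ℕ => ((D : ℝ) * (b : ℝ) ^ z0.length) * (val b (blk zy m) /
      (b : ℝ) ^ (z0.length + (len1 zy * m + len2 zy * (m * (m - 1) / 2))))) =
      fun m : ℕ => (J.map (fun j => (j.1 : ℝ) / (b : ℝ) ^ (j.2 * m))).sum /
        (b : ℝ) ^ (len1 zy * m + len2 zy * (m * (m - 1) / 2)) := by
    funext m
    rw [← hJ m, pow_add]
    field_simp
  rw [e] at h5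
  have h6 := h5.unique hsS
  refine can_of_mul (D * (b : ℤ) ^ z0.length) (mul_ne_zero hD (pow_ne_zero _ (by omega))) ?_
  have e2 : ((D * (b : ℤ) ^ z0.length : ℤ) : ℝ) * (∑' n : ℕ, (d n : ℝ) / (b : ℝ) ^ (n + 1)) =
      S + ((D * k : ℤ) : ℝ) := by
    rw [← h6]
    push_cast
    rw [hk]
    ring
  rw [e2]
  exact can_add hS (can_int _ _ _)

end Pool.Agent.Lib.MP_2e793b_nt.H30
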